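import Mathlib
import Pool.Agent.H24.SplDefs
import Pool.Agent.H24.Spl1

namespace Pool.Agent.Results.MP_2af702_co.Yes
open Pool.Agent.H24.SplDefs

theorem result : ∃ C : Set Pm, IsClass C ∧ Unsplittable C ∧ ¬ Separ ⊆ C ∧ ¬ C ⊆ Separ :=
  Pool.Agent.H24.Spl1.main

end Pool.Agent.Results.MP_2af702_co.Yes
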